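import Pool.Agent.Helper96.LR.Base

/-!
# Module AFF of MP_a2630c_LR: affine invariance of the equation
-/

open MeasureTheory Set Metric Real
open scoped RealInnerProductSpace ENNReal
open Pool.Agent.Helper16.Buoy (E cap IsEllipsoid Homothetic buoyancyBody)
open Pool.Agent.Helper73.HV (supp SBody)
open Pool.Agent.Helper35.HV (integral_image det_ne abs_det_pos integrable_K)

namespace Pool.Agent.Helper96.LR

open Pool.Agent.Helper73.LR

variable {n : ℕ}

theorem cap_aff (T : E n ≃L[ℝ] E n) (p : E n) (K : Set (E n)) (u v : E n) {lam : ℝ}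
    (hlam : 0 < lam) (hv : ad T u = lam • v) (τ : ℝ) :
    cap (aff T p '' K) u (lam * τ + inner ℝ u p) = aff T p '' cap K v τ := by
  ext y
  constructor
  · rintro ⟨⟨x, hx, rfl⟩, hy⟩
    refine ⟨x, ⟨hx, ?_⟩, rfl⟩
    have h1 : lam * τ + inner ℝ u p ≤ inner ℝ u (T x + p) := hy
    rw [inner_add_right, ← ad_inner, hv, real_inner_smul_left] at h1
    have h2 : lam * τ ≤ lam * inner ℝ v x := by linarith
    exact le_of_mul_le_mul_left h2 hlam
  · rintro ⟨x, ⟨hx, hx2⟩, rfl⟩
    refine ⟨⟨x, hx, rfl⟩, ?_⟩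
    have h3 : τ ≤ inner ℝ v x := hx2
    change lam * τ + inner ℝ u p ≤ inner ℝ u (T x + p)
    rw [inner_add_right, ← ad_inner, hv, real_inner_smul_left]
    have := mul_le_mul_of_nonneg_left h3 hlam.le
    linarith

theorem GG_aff (T : E n ≃L[ℝ] E n) (p : E n) {K : Set (E n)} (hK : IsCompact K) (u v : E n)
    {lam : ℝ} (hlam : 0 < lam) (hv : ad T u = lam • v) (τ : ℝ) :
    GG (aff T p '' K) u (lam * τ + inner ℝ u p) =
      |(T : E n →L[ℝ] E n).det| * (lam * GG K v τ) := by
  unfold GG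
  rw [integral_aff T p hK (fun y => max (inner ℝ u y - (lam * τ + inner ℝ u p)) 0),
    ← integral_const_mul lam]
  congr 2
  funext x
  rw [inner_add_right, ← ad_inner, hv, real_inner_smul_left, mul_max_of_nonneg _ _ hlam.le,
    mul_zero]
  congr 1
  ring

theorem sol_aff : S_sol_aff := by
  intro n K hK θ hS T p
  refine ⟨cb_aff hK T p, ?_⟩
  obtain ⟨c, b, hc, h⟩ := hS
  refine ⟨c, T b + (1 - c) • p, hc, ?_⟩
  intro u hu
  have hu0 : u ≠ 0 := by
    intro h0
    rw [h0, norm_zero] at hu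
    exact zero_ne_one hu
  have hw0 : ad T u ≠ 0 := ad_ne T hu0
  set lam : ℝ := ‖ad T u‖ with hlam
  have hlam0 : 0 < lam := norm_pos_iff.2 hw0
  set v : E n := lam⁻¹ • ad T u with hv
  have hvn : ‖v‖ = 1 := by
    rw [hv, norm_smul, norm_inv, norm_norm, inv_mul_cancel₀ hlam0.ne']
  have hv2 : ad T u = lam • v := by
    rw [hv, smul_smul, mul_inv_cancel₀ hlam0.ne', one_smul]
  obtain ⟨τ, h1, h2⟩ := h v hvn
  have hd := abs_det_pos T
  refine ⟨lam * τ + inner ℝ u p, ?_, ?_⟩
  · rw [cap_aff T p K u v hlam0 hv2, volume_aff, h1, vol_aff,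
      ← ENNReal.ofReal_mul hd.le]
    congr 1
    ring
  · have hb : (inner ℝ (T b + (1 - c) • p) u : ℝ) = lam * inner ℝ b v + (1 - c) * inner ℝ u p := by
      rw [inner_add_left, real_inner_smul_left, real_inner_comm u (T b), ← ad_inner, hv2,
        real_inner_smul_left, real_inner_comm b v, real_inner_comm u p]
    rw [GG_aff T p hK.comp u v hlam0 hv2, vol_aff,
      supp_aff hK.comp (hK.int.mono interior_subset), hb, hv2, supp_smul v hlam0.le]
    have h3 : GG K v τ = θ * vol K * (c * supp K v + inner ℝ b v) - θ * vol K * τ := by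
      rw [← h2]; ring
    rw [h3]
    ring

end Pool.Agent.Helper96.LR
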