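import Pool.Agent.Helper96.LR.Nrm

/-!
# Module ELL of MP_a2630c_LR: ellipsoids and normalised position
-/

open MeasureTheory Set Metric Real
open scoped RealInnerProductSpace ENNReal
open Pool.Agent.Helper16.Buoy (E cap IsEllipsoid Homothetic buoyancyBody)
open Pool.Agent.Helper35.HV (integral_image det_ne abs_det_pos integrable_K)

namespace Pool.Agent.Helper96.LR

open Pool.Agent.Helper73.LR

variable {n : ℕ}

theorem vol_closedBall {r : ℝ} (hr : 0 ≤ r) : vol (closedBall (0 : E n) r) = r ^ n * vol (BB n) := by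
  unfold vol
  rw [MeasureTheory.Measure.addHaar_closedBall' volume (0 : E n) hr, ENNReal.toReal_mul,
    ENNReal.toReal_ofReal (pow_nonneg hr _), finrank_euclideanSpace_fin]

theorem ell_nrm : S_ell_nrm := by
  rintro n K ⟨A, rfl⟩ hN
  obtain ⟨κ, hκ, hball⟩ := ball_mom n
  set S : E n ≃L[ℝ] E n := A.linear.toContinuousLinearEquiv with hS
  set a : E n := A 0 with ha
  have hA : ∀ x, A x = S x + a := by
    intro x
    have h : A x = A.linear x + A 0 := by simpa using A.map_vadd 0 x
    exact h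
  have hK : (A '' closedBall (0 : E n) 1) = aff S a '' BB n := by
    apply image_congr
    intro x _
    exact hA x
  rw [hK] at hN ⊢
  have hd := abs_det_pos S
  set δ : ℝ := |(S : E n →L[ℝ] E n).det| with hδ
  have hB := cb_ball (n := n)
  -- the centre is zero
  have ha0 : a = 0 := by
    have h1 := hN.cent a
    rw [integral_aff S a hB.comp (fun x => (inner ℝ a x : ℝ))] at h1
    have h2 : ∀ x, (inner ℝ a (S x + a) : ℝ) = inner ℝ (ad S a) x + inner ℝ a a := by
      intro x
      rw [ad_inner, inner_add_right]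
    simp only [h2] at h1
    rw [integral_add (integrable_K hB.comp (by fun_prop)) (integrable_K hB.comp (by fun_prop)),
      ball_cent, setIntegral_const, zero_add] at h1
    have h3 : δ * (vol (BB n) * inner ℝ a a) = 0 := h1
    have h4 : (inner ℝ a a : ℝ) = 0 := by
      rcases mul_eq_zero.1 h3 with h | h
      · exact absurd h hd.ne'
      · rcases mul_eq_zero.1 h with h | h
        · exact absurd h (vol_pos hB).ne'
        · exact h
    exact inner_self_eq_zero.1 h4
  have haff : ∀ x, aff S a x = S x := by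
    intro x
    rw [aff, ha0, add_zero]
  -- second moments
  set μ : ℝ := δ⁻¹ with hμ
  have hμ0 : 0 < μ := inv_pos.2 hd
  have hq : ∀ u, ‖ad S u‖ ^ 2 = μ * ‖u‖ ^ 2 := by
    intro u
    have h1 := hN.iner u
    rw [integral_aff S a hB.comp (fun x => (inner ℝ u x : ℝ) ^ 2), hball u] at h1
    have h2 : ∀ x, (inner ℝ u (S x + a) : ℝ) ^ 2 = (inner ℝ (ad S u) x) ^ 2 := by
      intro x
      rw [ad_inner, ha0, add_zero]
    simp only [h2] at h1
    rw [hball (ad S u)] at h1
    have h3 : δ * ‖ad S u‖ ^ 2 = ‖u‖ ^ 2 := by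
      have : κ * (δ * ‖ad S u‖ ^ 2) = κ * ‖u‖ ^ 2 := by linarith
      exact mul_left_cancel₀ hκ.ne' this
    rw [hμ, ← h3, ← mul_assoc, inv_mul_cancel₀ hd.ne', one_mul]
  have had : ∀ u v, ad S (u + v) = ad S u + ad S v := fun u v => by
    unfold ad
    rw [map_add]
  have hpol : ∀ u v, inner ℝ (ad S u) (ad S v) = μ * inner ℝ u v := by
    intro u v
    have h1 := hq (u + v)
    rw [had, norm_add_sq_real, norm_add_sq_real, hq u, hq v] at h1
    linarith
  have hSS : ∀ u, S (ad S u) = μ • u := by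
    intro u
    apply ext_inner_left ℝ
    intro v
    rw [← ad_inner, hpol, real_inner_smul_right]
  have hSS2 : ∀ x, ad S (S x) = μ • x := by
    intro x
    apply S.injective
    rw [hSS, map_smul]
  have hnS : ∀ x, ‖S x‖ = √μ * ‖x‖ := by
    intro x
    have h1 : ‖S x‖ ^ 2 = μ * ‖x‖ ^ 2 := by
      rw [← real_inner_self_eq_norm_sq, ← ad_inner, hSS2, real_inner_smul_left,
        real_inner_self_eq_norm_sq]
    have h2 : ‖S x‖ ^ 2 = (√μ * ‖x‖) ^ 2 := by
      rw [h1, mul_pow, Real.sq_sqrt hμ0.le]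
    exact (sq_eq_sq₀ (norm_nonneg _) (by positivity)).1 h2
  have himg : aff S a '' BB n = closedBall 0 (√μ) := by
    ext y
    rw [mem_closedBall_zero_iff]
    constructor
    · rintro ⟨x, hx, rfl⟩
      rw [haff, hnS]
      have hx1 : ‖x‖ ≤ 1 := mem_closedBall_zero_iff.1 hx
      have := mul_le_mul_of_nonneg_left hx1 (Real.sqrt_nonneg μ)
      linarith
    · intro hy
      refine ⟨S.symm y, ?_, by rw [haff, ContinuousLinearEquiv.apply_symm_apply]⟩
      have h1 := hnS (S.symm y)
      rw [ContinuousLinearEquiv.apply_symm_apply] at h1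
      rw [h1] at hy
      rw [mem_closedBall_zero_iff]
      have h2 : √μ * ‖S.symm y‖ ≤ √μ * 1 := by linarith
      exact le_of_mul_le_mul_left h2 (Real.sqrt_pos.2 hμ0)
  have hvol := vol_aff S a (BB n)
  rw [himg, vol_closedBall (Real.sqrt_nonneg μ)] at hvol
  have h5 : (√μ) ^ n = δ := mul_right_cancel₀ (vol_pos hB).ne' hvol
  have h6 : (√μ) ^ (n + 2) = 1 := by
    rw [pow_add, h5, Real.sq_sqrt hμ0.le, hμ, mul_inv_cancel₀ hd.ne']
  have h7 : √μ = 1 := (pow_eq_one_iff_of_nonneg (Real.sqrt_nonneg μ) (by omega)).1 h6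
  rw [himg, h7]

theorem ell_aff : S_ell_aff := by
  rintro n K T p ⟨A, hA⟩
  let B : E n ≃ᵃ[ℝ] E n := T.toLinearEquiv.toAffineEquiv.trans (AffineEquiv.constVAdd ℝ (E n) p)
  have hB : ∀ x, B x = aff T p x := by
    intro x
    simp [B, aff, add_comm]
  refine ⟨A.trans B.symm, ?_⟩
  have h1 : (A.trans B.symm) '' closedBall (0 : E n) 1 = B.symm '' (A '' closedBall (0 : E n) 1) := by
    rw [image_image]
    rfl
  have h2 : aff T p '' K = B '' K := image_congr fun x _ => (hB x).symm
  rw [h1, hA, h2, image_image]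
  simp

end Pool.Agent.Helper96.LR
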