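import Pool.Agent.Helper96.LR.Ell

/-!
# Module NNR of MP_a2630c_LR: bodies close to the ball stay close to the ball after normalisation
-/

open MeasureTheory Set Metric Real
open scoped RealInnerProductSpace ENNReal
open Pool.Agent.Helper16.Buoy (E cap IsEllipsoid Homothetic buoyancyBody)
open Pool.Agent.Helper35.HV (integral_image det_ne abs_det_pos integrable_K)

namespace Pool.Agent.Helper96.LR

open Pool.Agent.Helper73.LR

variable {n : ℕ}

/-- A ball is contained in a closed convex set as soon as the support function says so. -/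
theorem ball_sub {K : Set (E n)} (hc : Convex ℝ K) (hcl : IsClosed K) (hne : K.Nonempty) {r : ℝ}
    (h : ∀ u : E n, ‖u‖ = 1 → ∃ a ∈ K, r ≤ inner ℝ u a) : closedBall 0 r ⊆ K := by
  intro y hy
  by_contra hyK
  obtain ⟨f, s, h1, h2⟩ := geometric_hahn_banach_closed_point hc hcl hyK
  set v : E n := (InnerProductSpace.toDual ℝ (E n)).symm f with hv
  have hf : ∀ x, f x = inner ℝ v x := by
    intro x
    rw [hv, InnerProductSpace.toDual_symm_apply]
  by_cases hv0 : v = 0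
  · obtain ⟨a, ha⟩ := hne
    have h3 := h1 a ha
    rw [hf, hv0, inner_zero_left] at h3
    rw [hf, hv0, inner_zero_left] at h2
    linarith
  · have hvn : 0 < ‖v‖ := norm_pos_iff.2 hv0
    obtain ⟨a, ha, hra⟩ := h (‖v‖⁻¹ • v) (norm_smul_inv_norm hv0)
    have h3 := h1 a ha
    rw [hf] at h3 h2
    rw [real_inner_smul_left] at hra
    have h4 : r * ‖v‖ ≤ inner ℝ v a := by
      have := mul_le_mul_of_nonneg_right hra hvn.le
      rw [mul_comm ‖v‖⁻¹, mul_assoc, inv_mul_cancel₀ hvn.ne', mul_one] at this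
      exact this
    have h5 : inner ℝ v y ≤ ‖v‖ * ‖y‖ := real_inner_le_norm v y
    have h6 : ‖y‖ ≤ r := mem_closedBall_zero_iff.1 hy
    have h7 : ‖v‖ * ‖y‖ ≤ ‖v‖ * r := mul_le_mul_of_nonneg_left h6 hvn.le
    linarith

theorem norm_T_le {T : E n ≃L[ℝ] E n} {R : ℝ} (h : ∀ u, ‖ad T u‖ ≤ R * ‖u‖) (x : E n) :
    ‖T x‖ ≤ R * ‖x‖ := by
  by_cases h0 : ‖T x‖ = 0
  · rw [h0]
    have h1 : T x = 0 := norm_eq_zero.1 h0
    have h2 : x = 0 := by
      apply T.injective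
      rw [h1, map_zero]
    rw [h2, norm_zero, mul_zero]
  · have hpos : 0 < ‖T x‖ := lt_of_le_of_ne (norm_nonneg _) (Ne.symm h0)
    have h1 : ‖T x‖ * ‖T x‖ ≤ ‖T x‖ * (R * ‖x‖) := by
      calc ‖T x‖ * ‖T x‖ = inner ℝ (ad T (T x)) x := by
            rw [ad_inner, real_inner_self_eq_norm_sq, sq]
        _ ≤ ‖ad T (T x)‖ * ‖x‖ := real_inner_le_norm _ _
        _ ≤ (R * ‖T x‖) * ‖x‖ := mul_le_mul_of_nonneg_right (h _) (norm_nonneg _)
        _ = ‖T x‖ * (R * ‖x‖) := by ring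
    exact le_of_mul_le_mul_left h1 hpos

theorem le_norm_T {T : E n ≃L[ℝ] E n} {r : ℝ} (h : ∀ u, r * ‖u‖ ≤ ‖ad T u‖) (hr : 0 < r)
    (x : E n) : r * ‖x‖ ≤ ‖T x‖ := by
  by_cases h0 : x = 0
  · rw [h0]
    simp
  · have hpos : 0 < ‖x‖ := norm_pos_iff.2 h0
    set u := ad T.symm x with hu
    have hTu : ad T u = x := by
      apply ext_inner_right ℝ
      intro y
      rw [ad_inner, hu, ad_inner, ContinuousLinearEquiv.symm_apply_apply]
    have h1 : r * ‖u‖ ≤ ‖x‖ := by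
      rw [← hTu]
      exact h u
    have h2 : ‖x‖ * ‖x‖ ≤ ‖u‖ * ‖T x‖ := by
      calc ‖x‖ * ‖x‖ = inner ℝ (ad T u) x := by rw [hTu, real_inner_self_eq_norm_sq, sq]
        _ = inner ℝ u (T x) := ad_inner _ _ _
        _ ≤ ‖u‖ * ‖T x‖ := real_inner_le_norm _ _
    have h3 : ‖x‖ * (r * ‖x‖) ≤ ‖x‖ * ‖T x‖ := by
      calc ‖x‖ * (r * ‖x‖) = r * (‖x‖ * ‖x‖) := by ring
        _ ≤ r * (‖u‖ * ‖T x‖) := mul_le_mul_of_nonneg_left h2 hr.le
        _ = (r * ‖u‖) * ‖T x‖ := by ring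
        _ ≤ ‖x‖ * ‖T x‖ := mul_le_mul_of_nonneg_right h1 (norm_nonneg _)
    exact le_of_mul_le_mul_left h3 hpos

theorem vol_mono {A B : Set (E n)} (h : A ⊆ B) (hB : IsCompact B) : vol A ≤ vol B :=
  ENNReal.toReal_mono hB.measure_lt_top.ne (measure_mono h)

theorem det_le {T : E n ≃L[ℝ] E n} {R : ℝ} (hR : 0 ≤ R) (h : ∀ u, ‖ad T u‖ ≤ R * ‖u‖) :
    |(T : E n →L[ℝ] E n).det| ≤ R ^ n := by
  have h1 : aff T 0 '' BB n ⊆ closedBall 0 R := by
    rintro _ ⟨x, hx, rfl⟩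
    rw [mem_closedBall_zero_iff] at hx ⊢
    have h2 := norm_T_le h x
    rw [aff, add_zero]
    have h3 := mul_le_mul_of_nonneg_left hx hR
    linarith
  have h2 := vol_mono h1 (isCompact_closedBall 0 R)
  rw [vol_aff, vol_closedBall hR] at h2
  exact le_of_mul_le_mul_right h2 (vol_pos cb_ball)

theorem le_det {T : E n ≃L[ℝ] E n} {r : ℝ} (hr : 0 < r) (h : ∀ u, r * ‖u‖ ≤ ‖ad T u‖) :
    r ^ n ≤ |(T : E n →L[ℝ] E n).det| := by
  have h1 : closedBall 0 r ⊆ aff T 0 '' BB n := by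
    intro y hy
    refine ⟨T.symm y, ?_, by rw [aff, add_zero, ContinuousLinearEquiv.apply_symm_apply]⟩
    rw [mem_closedBall_zero_iff] at hy ⊢
    have h2 := le_norm_T h hr (T.symm y)
    rw [ContinuousLinearEquiv.apply_symm_apply] at h2
    have h3 : r * ‖T.symm y‖ ≤ r * 1 := by linarith
    exact le_of_mul_le_mul_left h3 hr
  have h2 := vol_mono h1 (cb_aff cb_ball T 0).comp
  rw [vol_aff, vol_closedBall hr.le] at h2
  exact le_of_mul_le_mul_right h2 (vol_pos cb_ball)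

/-- Second moments of a ball. -/
theorem ball_mom_r {κ : ℝ} (hball : ∀ u : E n, ∫ x in BB n, (inner ℝ u x) ^ 2 = κ * ‖u‖ ^ 2)
    {r : ℝ} (hr : 0 < r) (w : E n) :
    ∫ x in closedBall (0 : E n) r, (inner ℝ w x) ^ 2 = r ^ (n + 2) * (κ * ‖w‖ ^ 2) := by
  have h := Measure.setIntegral_comp_smul_of_pos (volume : Measure (E n))
    (fun x => (inner ℝ w x : ℝ) ^ 2) (BB n) hr
  rw [smul_unitClosedBall_of_nonneg hr.le, finrank_euclideanSpace_fin] at h
  have h2 : ∀ x : E n, (inner ℝ w (r • x) : ℝ) ^ 2 = r ^ 2 * (inner ℝ w x) ^ 2 := by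
    intro x
    rw [real_inner_smul_right]
    ring
  simp only [h2] at h
  rw [integral_const_mul, hball w, smul_eq_mul] at h
  have h3 : r ^ n ≠ 0 := (pow_pos hr n).ne'
  have h4 : ∫ x in closedBall (0 : E n) r, (inner ℝ w x) ^ 2 = r ^ n * (r ^ 2 * (κ * ‖w‖ ^ 2)) := by
    rw [h, ← mul_assoc, mul_inv_cancel₀ h3, one_mul]
  rw [h4]
  ring

/-- `δ ^ 2 * (q δ) ^ n` form of the determinant bounds. -/
theorem core {K : Set (E n)} {κ : ℝ} (hκ : 0 < κ)
    (hball : ∀ u : E n, ∫ x in BB n, (inner ℝ u x) ^ 2 = κ * ‖u‖ ^ 2) {e : ℝ} (he : 0 ≤ e)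
    (hK : CB K) (h1 : BB n ⊆ K) (h2 : K ⊆ closedBall 0 (1 + e)) {T : E n ≃L[ℝ] E n} {p : E n}
    (hN : Nrm (aff T p '' K)) (u : E n) :
    |inner ℝ u p| ≤ (1 + e) * ((1 + e) ^ n - 1) * ‖ad T u‖ ∧
    ‖u‖ ^ 2 ≤ (1 + e) ^ (n + 2) * |(T : E n →L[ℝ] E n).det| * ‖ad T u‖ ^ 2 ∧
    (1 - (1 + e) ^ n * vol (BB n) * ((1 + e) * ((1 + e) ^ n - 1)) ^ 2 / κ) *
      |(T : E n →L[ℝ] E n).det| * ‖ad T u‖ ^ 2 ≤ ‖u‖ ^ 2 := by
  set w := ad T u with hw
  set δ : ℝ := |(T : E n →L[ℝ] E n).det| with hδ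
  have hd : 0 < δ := abs_det_pos T
  set G : ℝ := (1 + e) * ((1 + e) ^ n - 1) with hG
  have hone : 1 ≤ (1 + e) ^ n := one_le_pow₀ (by linarith)
  have hG0 : 0 ≤ G := mul_nonneg (by linarith) (by linarith)
  have hV := vol_pos hK
  have hω : 0 < vol (BB n) := vol_pos cb_ball
  have hVω : vol (BB n) ≤ vol K := vol_mono h1 hK.comp
  have hV2 : vol K ≤ (1 + e) ^ n * vol (BB n) := by
    have := vol_mono h2 (isCompact_closedBall 0 (1 + e))
    rwa [vol_closedBall (by linarith)] at this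
  -- first moment
  have hI1 : vol K * inner ℝ u p = - ∫ x in K, (inner ℝ w x : ℝ) := by
    have h := hN.cent u
    rw [integral_aff T p hK.comp (fun x => (inner ℝ u x : ℝ))] at h
    have h3 : ∀ x, (inner ℝ u (T x + p) : ℝ) = inner ℝ w x + inner ℝ u p := by
      intro x
      rw [hw, ad_inner, inner_add_right]
    simp only [h3] at h
    rw [integral_add (integrable_K hK.comp (by fun_prop)) (integrable_K hK.comp (by fun_prop)),
      setIntegral_const] at h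
    have h4 : δ * ((∫ x in K, (inner ℝ w x : ℝ)) + vol K * inner ℝ u p) = 0 := h
    rcases mul_eq_zero.1 h4 with h5 | h5
    · exact absurd h5 hd.ne'
    · linarith
  -- second moment
  have hI2 : κ * ‖u‖ ^ 2 = δ * ((∫ x in K, (inner ℝ w x : ℝ) ^ 2) - vol K * (inner ℝ u p) ^ 2) := by
    have h := hN.iner u
    rw [integral_aff T p hK.comp (fun x => (inner ℝ u x : ℝ) ^ 2), hball u] at h
    have h3 : ∀ x, (inner ℝ u (T x + p) : ℝ) ^ 2 =
        (inner ℝ w x) ^ 2 + (2 * inner ℝ u p * inner ℝ w x + (inner ℝ u p) ^ 2) := by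
      intro x
      rw [hw, ad_inner, inner_add_right]
      ring
    simp only [h3] at h
    rw [integral_add (integrable_K hK.comp (by fun_prop)) (integrable_K hK.comp (by fun_prop)),
      integral_add (integrable_K hK.comp (by fun_prop)) (integrable_K hK.comp (by fun_prop)),
      setIntegral_const, integral_const_mul] at h
    rw [← h]
    have h5 : (∫ x in K, (inner ℝ w x : ℝ)) = - (vol K * inner ℝ u p) := by linarith
    rw [h5]
    change δ * (_ + (_ + vol K * _)) = _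
    ring
  -- bound for the first moment
  have hb1 : |∫ x in K, (inner ℝ w x : ℝ)| ≤ ‖w‖ * (1 + e) * (vol K - vol (BB n)) := by
    have hsplit : ∫ x in K, (inner ℝ w x : ℝ) =
        (∫ x in K \ BB n, (inner ℝ w x : ℝ)) + ∫ x in BB n, (inner ℝ w x : ℝ) := by
      rw [← setIntegral_union disjoint_sdiff_left measurableSet_closedBall
        ((integrable_K hK.comp (by fun_prop)).mono_set sdiff_subset)
        (integrable_K cb_ball.comp (by fun_prop)), sdiff_union_of_subset h1]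
    rw [hsplit, ball_cent, add_zero]
    have hm : volume (K \ BB n) < ∞ :=
      lt_of_le_of_lt (measure_mono sdiff_subset) hK.comp.measure_lt_top
    have h5 := norm_setIntegral_le_of_norm_le_const (μ := volume) (s := K \ BB n)
      (f := fun x : E n => (inner ℝ w x : ℝ)) (C := ‖w‖ * (1 + e)) hm (by
        intro x hx
        rw [Real.norm_eq_abs]
        refine (abs_real_inner_le_norm w x).trans ?_
        exact mul_le_mul_of_nonneg_left (mem_closedBall_zero_iff.1 (h2 hx.1)) (norm_nonneg _))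
    have h6 : (volume : Measure (E n)).real (K \ BB n) = vol K - vol (BB n) := by
      have := measureReal_sdiff (μ := (volume : Measure (E n))) h1 measurableSet_closedBall
        (hK.comp.measure_lt_top.ne)
      exact this
    rw [h6] at h5
    exact h5
  have hb1' : |inner ℝ u p| ≤ G * ‖w‖ := by
    have h3 : vol K * |inner ℝ u p| = |∫ x in K, (inner ℝ w x : ℝ)| := by
      rw [← abs_neg (∫ x in K, (inner ℝ w x : ℝ)), ← hI1, abs_mul, abs_of_pos hV]
    have h4 : vol K - vol (BB n) ≤ ((1 + e) ^ n - 1) * vol K := by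
      have : ((1 + e) ^ n - 1) * vol (BB n) ≤ ((1 + e) ^ n - 1) * vol K :=
        mul_le_mul_of_nonneg_left hVω (by linarith)
      linarith
    have h5 : vol K * |inner ℝ u p| ≤ vol K * (G * ‖w‖) := by
      rw [h3]
      refine hb1.trans ?_
      have h6 : ‖w‖ * (1 + e) * (vol K - vol (BB n)) ≤ ‖w‖ * (1 + e) * (((1 + e) ^ n - 1) * vol K) :=
        mul_le_mul_of_nonneg_left h4 (mul_nonneg (norm_nonneg _) (by linarith))
      refine h6.trans (le_of_eq ?_)
      rw [hG]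
      ring
    exact le_of_mul_le_mul_left h5 hV
  -- bounds for the second moment
  have hlo : κ * ‖w‖ ^ 2 ≤ ∫ x in K, (inner ℝ w x : ℝ) ^ 2 := by
    rw [← hball w]
    exact setIntegral_mono_set (integrable_K hK.comp (by fun_prop))
      (Filter.Eventually.of_forall fun x => sq_nonneg _) (h1.eventuallyLE)
  have hhi : ∫ x in K, (inner ℝ w x : ℝ) ^ 2 ≤ (1 + e) ^ (n + 2) * (κ * ‖w‖ ^ 2) := by
    rw [← ball_mom_r hball (by linarith : (0 : ℝ) < 1 + e) w]
    exact setIntegral_mono_set (integrable_K (isCompact_closedBall 0 (1 + e)) (by fun_prop))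
      (Filter.Eventually.of_forall fun x => sq_nonneg _) (h2.eventuallyLE)
  refine ⟨hb1', ?_, ?_⟩
  · have h3 : κ * ‖u‖ ^ 2 ≤ κ * ((1 + e) ^ (n + 2) * δ * ‖w‖ ^ 2) := by
      rw [hI2]
      have h4 : (∫ x in K, (inner ℝ w x : ℝ) ^ 2) - vol K * (inner ℝ u p) ^ 2 ≤
          (1 + e) ^ (n + 2) * (κ * ‖w‖ ^ 2) := by
        have : 0 ≤ vol K * (inner ℝ u p) ^ 2 := by positivity
        linarith
      refine (mul_le_mul_of_nonneg_left h4 hd.le).trans (le_of_eq ?_)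
      ring
    exact le_of_mul_le_mul_left h3 hκ
  · have h3 : κ * ((1 - (1 + e) ^ n * vol (BB n) * G ^ 2 / κ) * δ * ‖w‖ ^ 2) ≤ κ * ‖u‖ ^ 2 := by
      rw [hI2]
      have h4 : κ * ‖w‖ ^ 2 - (1 + e) ^ n * vol (BB n) * (G ^ 2 * ‖w‖ ^ 2) ≤
          (∫ x in K, (inner ℝ w x : ℝ) ^ 2) - vol K * (inner ℝ u p) ^ 2 := by
        have h5 : (inner ℝ u p) ^ 2 ≤ G ^ 2 * ‖w‖ ^ 2 := by
          rw [← sq_abs, ← mul_pow]
          exact pow_le_pow_left₀ (abs_nonneg _) hb1' 2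
        have h6 : vol K * (inner ℝ u p) ^ 2 ≤ (1 + e) ^ n * vol (BB n) * (G ^ 2 * ‖w‖ ^ 2) :=
          mul_le_mul hV2 h5 (sq_nonneg _) (by positivity)
        linarith
      refine le_trans (le_of_eq ?_) (mul_le_mul_of_nonneg_left h4 hd.le)
      field_simp
    exact le_of_mul_le_mul_left h3 hκ

theorem near_mono {K : Set (E n)} {ε ε' : ℝ} (h : Near K ε') (hle : ε' ≤ ε) : Near K ε :=
  ⟨(closedBall_subset_closedBall (by linarith)).trans h.1,
    h.2.trans (closedBall_subset_closedBall (by linarith))⟩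

theorem step {K : Set (E n)} {κ : ℝ} (hκ : 0 < κ)
    (hball : ∀ u : E n, ∫ x in BB n, (inner ℝ u x) ^ 2 = κ * ‖u‖ ^ 2) {e : ℝ} (he : 0 ≤ e)
    (hK : CB K) (h1 : BB n ⊆ K) (h2 : K ⊆ closedBall 0 (1 + e)) {T : E n ≃L[ℝ] E n} {p : E n}
    (hN : Nrm (aff T p '' K)) {ε G L D : ℝ} (hε : 0 < ε) (hε1 : ε < 1)
    (hG : G = (1 + e) * ((1 + e) ^ n - 1)) (hL : L = (1 + e) ^ (n + 2))
    (hD : D = 1 - (1 + e) ^ n * vol (BB n) * ((1 + e) * ((1 + e) ^ n - 1)) ^ 2 / κ)
    (hD0 : 0 < D) (hG1 : G < 1) (hA : (1 + e + G) ^ 2 * L < (1 + ε) ^ 2 * D)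
    (hB : (1 - ε) ^ 2 * L < (1 - G) ^ 2 * D) : Near (aff T p '' K) ε := by
  have hcore := core hκ hball he hK h1 h2 hN
  rw [← hD, ← hG, ← hL] at hcore
  set δ : ℝ := |(T : E n →L[ℝ] E n).det| with hδ
  have hd : 0 < δ := abs_det_pos T
  have hL1 : 1 ≤ L := by
    rw [hL]
    exact one_le_pow₀ (by linarith)
  have hL0 : 0 < L := by linarith
  have hG0 : 0 ≤ G := by
    have hone : 1 ≤ (1 + e) ^ n := one_le_pow₀ (by linarith)
    rw [hG]
    exact mul_nonneg (by linarith) (by linarith)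
  have hD1 : D ≤ 1 := by
    rw [hD]
    have hω : 0 < vol (BB n) := vol_pos cb_ball
    have : 0 ≤ (1 + e) ^ n * vol (BB n) * ((1 + e) * ((1 + e) ^ n - 1)) ^ 2 / κ := by positivity
    linarith
  -- the determinant
  have hDd : D * δ ≤ 1 := by
    have hq : 0 < D * δ := mul_pos hD0 hd
    have hR : ∀ u, ‖ad T u‖ ≤ (√(D * δ))⁻¹ * ‖u‖ := by
      intro u
      have h3 := (hcore u).2.2
      have h4 : (√(D * δ) * ‖ad T u‖) ^ 2 ≤ ‖u‖ ^ 2 := by
        rw [mul_pow, Real.sq_sqrt hq.le]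
        exact h3
      have h5 : √(D * δ) * ‖ad T u‖ ≤ ‖u‖ := (sq_le_sq₀ (by positivity) (norm_nonneg _)).1 h4
      rw [inv_mul_eq_div, le_div_iff₀ (Real.sqrt_pos.2 hq)]
      linarith
    have h6 := det_le (by positivity) hR
    by_contra hcon
    push Not at hcon
    have h7 : 1 < √(D * δ) := by
      rw [Real.lt_sqrt zero_le_one]
      linarith
    have h8 : (√(D * δ))⁻¹ ^ n ≤ 1 := pow_le_one₀ (by positivity) (inv_le_one_of_one_le₀ h7.le)
    have h9 : δ ≤ 1 := h6.trans h8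
    have h10 : D * δ ≤ 1 * 1 := mul_le_mul hD1 h9 hd.le zero_le_one
    linarith
  have hLd : 1 ≤ L * δ := by
    have hq : 0 < L * δ := mul_pos hL0 hd
    have hr : ∀ u, (√(L * δ))⁻¹ * ‖u‖ ≤ ‖ad T u‖ := by
      intro u
      have h3 := (hcore u).2.1
      have h4 : ‖u‖ ^ 2 ≤ (√(L * δ) * ‖ad T u‖) ^ 2 := by
        rw [mul_pow, Real.sq_sqrt hq.le]
        exact h3
      have h5 : ‖u‖ ≤ √(L * δ) * ‖ad T u‖ := (sq_le_sq₀ (norm_nonneg _) (by positivity)).1 h4
      rw [inv_mul_eq_div, div_le_iff₀ (Real.sqrt_pos.2 hq)]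
      linarith
    have h6 := le_det (inv_pos.2 (Real.sqrt_pos.2 hq)) hr
    by_contra hcon
    push Not at hcon
    have h7 : √(L * δ) < 1 := by
      rw [Real.sqrt_lt' one_pos]
      linarith
    have h8 : 1 ≤ (√(L * δ))⁻¹ ^ n :=
      one_le_pow₀ ((one_le_inv₀ (Real.sqrt_pos.2 hq)).2 h7.le)
    have h9 : 1 ≤ δ := h8.trans h6
    have h10 : 1 * 1 ≤ L * δ := mul_le_mul hL1 h9 zero_le_one hL0.le
    linarith
  -- bounds for `‖ad T u‖`
  have hup : ∀ u : E n, ‖u‖ = 1 → (1 + e + G) * ‖ad T u‖ < 1 + ε := by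
    intro u hu
    have h3 := (hcore u).2.2
    rw [hu, one_pow] at h3
    have h4 : D * ‖ad T u‖ ^ 2 ≤ L := by
      have h5 : δ * (D * ‖ad T u‖ ^ 2) ≤ δ * L := by
        calc δ * (D * ‖ad T u‖ ^ 2) = D * δ * ‖ad T u‖ ^ 2 := by ring
          _ ≤ 1 := h3
          _ ≤ L * δ := hLd
          _ = δ * L := by ring
      exact le_of_mul_le_mul_left h5 hd
    have h5 : D * ((1 + e + G) * ‖ad T u‖) ^ 2 < D * (1 + ε) ^ 2 := by
      calc D * ((1 + e + G) * ‖ad T u‖) ^ 2 = (1 + e + G) ^ 2 * (D * ‖ad T u‖ ^ 2) := by ring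
        _ ≤ (1 + e + G) ^ 2 * L := mul_le_mul_of_nonneg_left h4 (sq_nonneg _)
        _ < (1 + ε) ^ 2 * D := hA
        _ = D * (1 + ε) ^ 2 := by ring
    have h6 := lt_of_mul_lt_mul_left h5 hD0.le
    exact (sq_lt_sq₀ (by positivity) (by linarith)).1 h6
  have hlow : ∀ u : E n, ‖u‖ = 1 → 1 - ε < (1 - G) * ‖ad T u‖ := by
    intro u hu
    have h3 := (hcore u).2.1
    rw [hu, one_pow] at h3
    have h4 : D ≤ L * ‖ad T u‖ ^ 2 := by
      have h5 : δ * D ≤ δ * (L * ‖ad T u‖ ^ 2) := by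
        calc δ * D = D * δ := by ring
          _ ≤ 1 := hDd
          _ ≤ L * δ * ‖ad T u‖ ^ 2 := h3
          _ = δ * (L * ‖ad T u‖ ^ 2) := by ring
      exact le_of_mul_le_mul_left h5 hd
    have h5 : L * (1 - ε) ^ 2 < L * ((1 - G) * ‖ad T u‖) ^ 2 := by
      calc L * (1 - ε) ^ 2 = (1 - ε) ^ 2 * L := by ring
        _ < (1 - G) ^ 2 * D := hB
        _ ≤ (1 - G) ^ 2 * (L * ‖ad T u‖ ^ 2) := mul_le_mul_of_nonneg_left h4 (sq_nonneg _)
        _ = L * ((1 - G) * ‖ad T u‖) ^ 2 := by ring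
    have h6 := lt_of_mul_lt_mul_left h5 hL0.le
    exact (sq_lt_sq₀ (by linarith) (mul_nonneg (by linarith) (norm_nonneg _))).1 h6
  have hK' := cb_aff hK T p
  constructor
  · refine ball_sub hK'.conv hK'.comp.isClosed (hK'.int.mono interior_subset) ?_
    intro u hu
    have hu0 : u ≠ 0 := by
      intro h0
      rw [h0, norm_zero] at hu
      exact zero_ne_one hu
    have hw0 := ad_ne T hu0
    refine ⟨aff T p (‖ad T u‖⁻¹ • ad T u), ⟨_, h1 ?_, rfl⟩, ?_⟩
    · rw [mem_closedBall_zero_iff]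
      exact (norm_smul_inv_norm hw0).le
    · have hwn : 0 < ‖ad T u‖ := norm_pos_iff.2 hw0
      have h3 : (inner ℝ u (aff T p (‖ad T u‖⁻¹ • ad T u)) : ℝ) = ‖ad T u‖ + inner ℝ u p := by
        rw [aff, inner_add_right, ← ad_inner, real_inner_smul_right, real_inner_self_eq_norm_sq,
          sq, ← mul_assoc, inv_mul_cancel₀ hwn.ne', one_mul]
      rw [h3]
      have h4 := (abs_le.1 (hcore u).1).1
      have h5 := hlow u hu
      linarith
  · rintro _ ⟨x, hx, rfl⟩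
    rw [mem_closedBall_zero_iff]
    by_cases hy : aff T p x = 0
    · rw [hy, norm_zero]
      linarith
    · have hyn : 0 < ‖aff T p x‖ := norm_pos_iff.2 hy
      set u : E n := ‖aff T p x‖⁻¹ • aff T p x with hu
      have hun : ‖u‖ = 1 := norm_smul_inv_norm hy
      have h3 : ‖aff T p x‖ = inner ℝ u (aff T p x) := by
        rw [hu, real_inner_smul_left, real_inner_self_eq_norm_sq, sq, ← mul_assoc,
          inv_mul_cancel₀ hyn.ne', one_mul]
      have h4 : (inner ℝ u (aff T p x) : ℝ) = inner ℝ (ad T u) x + inner ℝ u p := by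
        rw [aff, inner_add_right, ad_inner]
      have h5 : (inner ℝ (ad T u) x : ℝ) ≤ ‖ad T u‖ * (1 + e) :=
        (real_inner_le_norm _ _).trans
          (mul_le_mul_of_nonneg_left (mem_closedBall_zero_iff.1 (h2 hx)) (norm_nonneg _))
      have h6 := (abs_le.1 (hcore u).1).2
      have h7 := hup u hun
      rw [h3, h4]
      linarith

theorem near_nrm : S_near_nrm := by
  intro n ε0 hε0
  obtain ⟨κ, hκ, hball⟩ := ball_mom n
  set ε : ℝ := min ε0 (1 / 2) with hε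
  have hεpos : 0 < ε := lt_min hε0 (by norm_num)
  have hε1 : ε < 1 := lt_of_le_of_lt (min_le_right _ _) (by norm_num)
  set G : ℝ → ℝ := fun e => (1 + e) * ((1 + e) ^ n - 1) with hG
  set L : ℝ → ℝ := fun e => (1 + e) ^ (n + 2) with hL
  set D : ℝ → ℝ := fun e =>
    1 - (1 + e) ^ n * vol (BB n) * ((1 + e) * ((1 + e) ^ n - 1)) ^ 2 / κ with hD
  have hGc : Continuous G := by rw [hG]; fun_prop
  have hLc : Continuous L := by rw [hL]; fun_prop
  have hDc : Continuous D := by rw [hD]; fun_prop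
  have hG0 : G 0 = 0 := by simp [hG]
  have hL0 : L 0 = 1 := by simp [hL]
  have hD0 : D 0 = 1 := by simp [hD]
  have e1 : ∀ᶠ e in nhds (0 : ℝ), 0 < D e :=
    hDc.continuousAt.eventually (lt_mem_nhds (by rw [hD0]; norm_num))
  have e2 : ∀ᶠ e in nhds (0 : ℝ), G e < 1 :=
    hGc.continuousAt.eventually (gt_mem_nhds (by rw [hG0]; norm_num))
  have e3 : ∀ᶠ e in nhds (0 : ℝ), (1 + e + G e) ^ 2 * L e < (1 + ε) ^ 2 * D e := by
    have hc : Continuous (fun e => (1 + ε) ^ 2 * D e - (1 + e + G e) ^ 2 * L e) := by fun_prop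
    have h0 : 0 < (1 + ε) ^ 2 * D 0 - (1 + 0 + G 0) ^ 2 * L 0 := by
      rw [hD0, hG0, hL0]
      nlinarith
    filter_upwards [hc.continuousAt.eventually (lt_mem_nhds h0)] with e he
    linarith
  have e4 : ∀ᶠ e in nhds (0 : ℝ), (1 - ε) ^ 2 * L e < (1 - G e) ^ 2 * D e := by
    have hc : Continuous (fun e => (1 - G e) ^ 2 * D e - (1 - ε) ^ 2 * L e) := by fun_prop
    have h0 : 0 < (1 - G 0) ^ 2 * D 0 - (1 - ε) ^ 2 * L 0 := by
      rw [hD0, hG0, hL0]
      nlinarith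
    filter_upwards [hc.continuousAt.eventually (lt_mem_nhds h0)] with e he
    linarith
  obtain ⟨r, hr, hall⟩ := Metric.eventually_nhds_iff.1 (e1.and (e2.and (e3.and e4)))
  have hmem : dist (r / 2) 0 < r := by
    rw [dist_zero_right, Real.norm_of_nonneg (by linarith)]
    linarith
  obtain ⟨h1, h2, h3, h4⟩ := hall hmem
  refine ⟨r / 2, by linarith, ?_⟩
  intro K T p hK hB hK2 hN
  refine near_mono (ε' := ε) ?_ (min_le_left _ _)
  exact step hκ hball (by linarith) hK hB hK2 hN hεpos hε1 rfl rfl rfl h1 h2 h3 h4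

end Pool.Agent.Helper96.LR
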