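import Pool.Agent.Helper96.LR.Base

/-!
# Module NRM of MP_a2630c_LR: normalised position, and ellipsoids in normalised position
-/

open MeasureTheory Set Metric Real
open scoped RealInnerProductSpace ENNReal
open Pool.Agent.Helper16.Buoy (E cap IsEllipsoid Homothetic buoyancyBody)
open Pool.Agent.Helper73.HV (supp SBody)
open Pool.Agent.Helper35.HV (integral_image det_ne abs_det_pos integrable_K QQ QQ_apply QQ_self
  QQ_symm)

namespace Pool.Agent.Helper96.LR

open Pool.Agent.Helper73.LR

variable {n : ℕ}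

/-- The second moment is positive definite. -/
theorem quad_pos {K : Set (E n)} (hK : CB K) (u : E n) (hu : u ≠ 0) :
    0 < ∫ x in K, (inner ℝ u x) ^ 2 := by
  have hc : Continuous (fun x : E n => (inner ℝ u x) ^ 2) := by fun_prop
  rw [setIntegral_pos_iff_support_of_nonneg_ae]
  · have hopen : IsOpen (Function.support (fun x : E n => (inner ℝ u x) ^ 2) ∩ interior K) :=
      hc.isOpen_support.inter isOpen_interior
    have hne : (Function.support (fun x : E n => (inner ℝ u x) ^ 2) ∩ interior K).Nonempty := by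
      obtain ⟨x, hx⟩ := hK.int
      by_cases h0 : inner ℝ u x = 0
      · -- move in direction `u`
        have hcont : Filter.Tendsto (fun t : ℝ => x + t • u) (nhds 0) (nhds x) := by
          have : Continuous (fun t : ℝ => x + t • u) := by fun_prop
          have h1 := this.tendsto 0
          simpa using h1
        have h2 : ∀ᶠ t : ℝ in nhds 0, x + t • u ∈ interior K :=
          hcont (isOpen_interior.mem_nhds hx)
        obtain ⟨ε, hε, hball⟩ := Metric.eventually_nhds_iff_ball.1 h2
        refine ⟨x + (ε / 2) • u, ?_, hball (ε / 2) (by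
          rw [Metric.mem_ball, dist_zero_right, Real.norm_of_nonneg (by positivity)]; linarith)⟩
        rw [Function.mem_support, inner_add_right, h0, inner_smul_right,
          real_inner_self_eq_norm_sq, zero_add]
        have : ‖u‖ ≠ 0 := norm_ne_zero_iff.2 hu
        positivity
      · exact ⟨x, by rw [Function.mem_support]; exact pow_ne_zero 2 h0, hx⟩
    exact lt_of_lt_of_le (hopen.measure_pos volume hne)
      (measure_mono (inter_subset_inter_right _ interior_subset))
  · exact Filter.Eventually.of_forall fun x => sq_nonneg _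
  · exact integrable_K hK.comp hc

/-- A linear isometry does not change integrals over the ball. -/
theorem ball_isom (R : E n ≃ₗᵢ[ℝ] E n) (g : E n → ℝ) :
    ∫ x in BB n, g (R x) = ∫ x in BB n, g x := by
  have h := R.measurePreserving.setIntegral_preimage_emb R.toHomeomorph.measurableEmbedding g (BB n)
  have h2 : R ⁻¹' (BB n) = BB n := by
    ext x
    simp
  rw [h2] at h
  exact h

/-- The second moments of the ball. -/
theorem ball_mom (n : ℕ) : ∃ κ : ℝ, 0 < κ ∧ ∀ u : E n, ∫ x in BB n, (inner ℝ u x) ^ 2 = κ * ‖u‖ ^ 2 := by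
  by_cases hn : ∃ e : E n, ‖e‖ = 1
  · obtain ⟨e, he⟩ := hn
    have he0 : e ≠ 0 := by
      intro h0
      rw [h0, norm_zero] at he
      exact zero_ne_one he
    refine ⟨∫ x in BB n, (inner ℝ e x) ^ 2, quad_pos cb_ball e he0, ?_⟩
    intro u
    by_cases hu : u = 0
    · rw [hu]
      simp
    · set u' : E n := ‖u‖ • e with hu'
      have hnorm : ‖u‖ = ‖u'‖ := by
        rw [hu', norm_smul, norm_norm, he, mul_one]
      set R : E n ≃ₗᵢ[ℝ] E n := (ℝ ∙ (u - u'))ᗮ.reflection with hR
      have hRu : R u = u' := Submodule.reflection_sub hnorm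
      have h1 : ∀ x, inner ℝ u x = inner ℝ u' (R x) := by
        intro x
        rw [← hRu, R.inner_map_map]
      have h2 : ∫ x in BB n, (inner ℝ u x) ^ 2 = ∫ x in BB n, (inner ℝ u' x) ^ 2 := by
        rw [← ball_isom R (fun x => (inner ℝ u' x) ^ 2)]
        simp only [h1]
      rw [h2, ← integral_mul_const]
      congr 1
      funext x
      rw [hu', real_inner_smul_left]
      ring
  · refine ⟨1, one_pos, ?_⟩
    intro u
    have hu : u = 0 := by
      by_contra h0
      exact hn ⟨‖u‖⁻¹ • u, norm_smul_inv_norm h0⟩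
    rw [hu]
    simp

theorem ball_cent (u : E n) : ∫ x in BB n, (inner ℝ u x : ℝ) = 0 := by
  have h := ball_isom (LinearIsometryEquiv.neg ℝ) (fun x : E n => (inner ℝ u x : ℝ))
  simp only [LinearIsometryEquiv.coe_neg, inner_neg_right, integral_neg] at h
  linarith

/-- Isotropic position. -/
theorem exists_iso {K : Set (E n)} (hK : CB K) : ∃ (T : E n ≃L[ℝ] E n),
    ∀ u, ∫ x in K, (inner ℝ u (T x)) ^ 2 = ‖u‖ ^ 2 := by
  obtain ⟨v0, hv0⟩ := LinearMap.BilinForm.exists_orthogonal_basis (QQ_symm K hK.comp)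
  have hfr : Module.finrank ℝ (E n) = n := by simp
  set v : Module.Basis (Fin n) ℝ (E n) := v0.reindex (finCongr hfr) with hv
  have hvo : ∀ i j, i ≠ j → QQ K hK.comp (v i) (v j) = 0 := by
    intro i j hij
    rw [hv, Module.Basis.reindex_apply, Module.Basis.reindex_apply]
    exact hv0 (by simpa using hij)
  set q : Fin n → ℝ := fun i => QQ K hK.comp (v i) (v i) with hq
  have hqpos : ∀ i, 0 < q i := by
    intro i
    rw [hq]
    simp only
    rw [QQ_self]
    exact quad_pos hK (v i) (v.ne_zero i)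
  -- the map `S`
  let S : E n →ₗ[ℝ] E n :=
    { toFun := fun u => ∑ i, (u i / √(q i)) • v i
      map_add' := by
        intro u u'
        rw [← Finset.sum_add_distrib]
        refine Finset.sum_congr rfl fun i _ => ?_
        rw [← add_smul, PiLp.add_apply, add_div]
      map_smul' := by
        intro c u
        rw [RingHom.id_apply, Finset.smul_sum]
        refine Finset.sum_congr rfl fun i _ => ?_
        rw [smul_smul, PiLp.smul_apply, smul_eq_mul, mul_div_assoc] }
  have hS : ∀ u, S u = ∑ i, (u i / √(q i)) • v i := fun u => rfl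
  have hQS : ∀ u, QQ K hK.comp (S u) (S u) = ‖u‖ ^ 2 := by
    intro u
    have hbil : QQ K hK.comp (S u) (S u) =
        ∑ i, (QQ K hK.comp ((u i / √(q i)) • v i)) (∑ j, (u j / √(q j)) • v j) := by
      rw [hS]
      conv_lhs => rw [map_sum (QQ K hK.comp) (fun i => (u i / √(q i)) • v i) Finset.univ]
      rw [LinearMap.sum_apply]
    rw [hbil]
    have h1 : ∀ i, (QQ K hK.comp ((u i / √(q i)) • v i)) (∑ j, (u j / √(q j)) • v j) = u i ^ 2 := by
      intro i
      rw [map_sum, Finset.sum_eq_single i]
      · rw [map_smul, map_smul, LinearMap.smul_apply, smul_eq_mul, smul_eq_mul]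
        have h2 : QQ K hK.comp (v i) (v i) = q i := rfl
        rw [h2]
        have h3 : √(q i) * √(q i) = q i := Real.mul_self_sqrt (hqpos i).le
        have h4 : √(q i) ≠ 0 := (Real.sqrt_pos.2 (hqpos i)).ne'
        field_simp
        rw [sq (√(q i)), h3]
      · intro j _ hji
        rw [map_smul, map_smul, LinearMap.smul_apply, hvo i j (Ne.symm hji)]
        simp
      · intro h
        exact absurd (Finset.mem_univ _) h
    rw [Finset.sum_congr rfl fun i _ => h1 i, EuclideanSpace.norm_sq_eq]
    refine Finset.sum_congr rfl fun i _ => ?_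
    rw [Real.norm_eq_abs, sq_abs]
  have hSinj : Function.Injective S := by
    rw [injective_iff_map_eq_zero]
    intro u hu
    have := hQS u
    rw [hu] at this
    simp only [map_zero] at this
    have h2 : ‖u‖ = 0 := by
      have := this.symm
      exact pow_eq_zero_iff (two_ne_zero) |>.1 this
    exact norm_eq_zero.1 h2
  have hSsurj : Function.Surjective S := LinearMap.injective_iff_surjective.1 hSinj
  set T0 : E n →ₗ[ℝ] E n := LinearMap.adjoint S with hT0
  have hT0ip : ∀ u x, inner ℝ u (T0 x) = inner ℝ (S u) x := by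
    intro u x
    rw [hT0, LinearMap.adjoint_inner_right]
  have hT0inj : Function.Injective T0 := by
    rw [injective_iff_map_eq_zero]
    intro x hx
    obtain ⟨u, hu⟩ := hSsurj x
    have := hT0ip u x
    rw [hx, inner_zero_right, hu, real_inner_self_eq_norm_sq] at this
    have h2 : ‖x‖ = 0 := pow_eq_zero_iff (two_ne_zero) |>.1 this.symm
    exact norm_eq_zero.1 h2
  set T : E n ≃L[ℝ] E n := (LinearEquiv.ofInjectiveEndo T0 hT0inj).toContinuousLinearEquiv with hT
  have hTx : ∀ x, T x = T0 x := fun x => rfl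
  refine ⟨T, ?_⟩
  intro u
  have h5 : ∀ x, (inner ℝ u (T x)) ^ 2 = (inner ℝ (S u) x) ^ 2 := fun x => by
    rw [hTx, hT0ip]
  simp only [h5]
  rw [← QQ_self K hK.comp, hQS]

/-- The centroid of a convex body. -/
theorem exists_cent {K : Set (E n)} (hK : CB K) : ∃ g : E n, ∀ w : E n,
    ∫ x in K, (inner ℝ w x : ℝ) = vol K * inner ℝ w g := by
  refine ⟨(vol K)⁻¹ • ∫ x in K, x, ?_⟩
  intro w
  rw [real_inner_smul_right, ← mul_assoc, mul_inv_cancel₀ (vol_pos hK).ne', one_mul]
  have hint : IntegrableOn (fun x : E n => x) K :=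
    continuous_id.continuousOn.integrableOn_compact hK.comp
  exact (integral_inner hint w)

theorem det_smul (T : E n ≃L[ℝ] E n) {lam : ℝ} (h : lam ≠ 0) :
    ((T.trans (ContinuousLinearEquiv.smulLeft (Units.mk0 lam h)) : E n ≃L[ℝ] E n) :
      E n →L[ℝ] E n).det = lam ^ n * (T : E n →L[ℝ] E n).det := by
  have h1 : ((T.trans (ContinuousLinearEquiv.smulLeft (Units.mk0 lam h)) : E n ≃L[ℝ] E n) :
      E n →L[ℝ] E n) = lam • (T : E n →L[ℝ] E n) := by
    ext x
    simp
  rw [h1]
  change LinearMap.det (lam • ((T : E n →L[ℝ] E n) : E n →ₗ[ℝ] E n)) = _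
  rw [LinearMap.det_smul, finrank_euclideanSpace_fin]

theorem normalize : S_normalize := by
  intro n K hK
  obtain ⟨g, hg⟩ := exists_cent hK
  have hK0 : CB (aff (ContinuousLinearEquiv.refl ℝ (E n)) (-g) '' K) := cb_aff hK _ _
  obtain ⟨T, hT⟩ := exists_iso hK0
  obtain ⟨κ, hκ, hball⟩ := ball_mom n
  -- second moments after `T`
  have hT2 : ∀ u : E n, ∫ x in K, (inner ℝ u (T (x - g))) ^ 2 = ‖u‖ ^ 2 := by
    intro u
    have h1 := hT u
    rw [integral_aff _ _ hK.comp (fun x => (inner ℝ u (T x)) ^ 2)] at h1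
    have h2 : |((ContinuousLinearEquiv.refl ℝ (E n) : E n ≃L[ℝ] E n) : E n →L[ℝ] E n).det| = 1 := by
      change |LinearMap.det (LinearMap.id : E n →ₗ[ℝ] E n)| = 1
      rw [LinearMap.det_id, abs_one]
    rw [h2, one_mul] at h1
    rw [← h1]
    congr 1
  have hd := abs_det_pos T
  set δ : ℝ := |(T : E n →L[ℝ] E n).det| with hδ
  -- scaling factor
  set lam : ℝ := (κ / δ) ^ (((n + 2 : ℕ) : ℝ)⁻¹) with hlam
  have hlam0 : 0 < lam := Real.rpow_pos_of_pos (div_pos hκ hd) _
  have hpow : lam ^ (n + 2) = κ / δ :=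
    Real.rpow_inv_natCast_pow (div_pos hκ hd).le (by omega)
  set T' : E n ≃L[ℝ] E n := T.trans (ContinuousLinearEquiv.smulLeft (Units.mk0 lam hlam0.ne'))
    with hT'
  have hT'x : ∀ x, T' x = lam • T x := fun x => by
    rw [hT']
    simp
  have hdet : |(T' : E n →L[ℝ] E n).det| = lam ^ n * δ := by
    rw [hT', det_smul T hlam0.ne', abs_mul, abs_of_pos (pow_pos hlam0 n)]
  have himg : ∀ x, T' x + -T' g = lam • T (x - g) := by
    intro x
    rw [hT'x, hT'x, map_sub, smul_sub]
    abel
  refine ⟨T', -T' g, ?_, ?_⟩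
  · intro u
    rw [integral_aff _ _ hK.comp (fun x => (inner ℝ u x : ℝ))]
    have h1 : ∀ x, (inner ℝ u (T' x + -T' g) : ℝ) = inner ℝ (ad T' u) x - inner ℝ (ad T' u) g := by
      intro x
      rw [ad_inner, ad_inner, inner_add_right, inner_neg_right]
      ring
    simp only [h1]
    rw [integral_sub (integrable_K hK.comp (by fun_prop)) (integrable_K hK.comp (by fun_prop)), hg,
      setIntegral_const]
    change _ * (vol K * _ - vol K * _) = 0
    ring
  · intro u
    rw [integral_aff _ _ hK.comp (fun x => (inner ℝ u x : ℝ) ^ 2), hball u, hdet]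
    have h1 : ∀ x, (inner ℝ u (T' x + -T' g) : ℝ) ^ 2 = lam ^ 2 * (inner ℝ u (T (x - g))) ^ 2 := by
      intro x
      rw [himg, real_inner_smul_right]
      ring
    simp only [h1]
    rw [integral_const_mul, hT2]
    have h2 : lam ^ n * δ * (lam ^ 2 * ‖u‖ ^ 2) = lam ^ (n + 2) * δ * ‖u‖ ^ 2 := by ring
    rw [h2, hpow, div_mul_cancel₀ _ hd.ne']

end Pool.Agent.Helper96.LR
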