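import Pool.Agent.Helper73.LR.Stmts
import Pool.Agent.Helper35.HV.Iso

/-!
# Affine images of convex bodies (modules AFF, NRM, NNR of MP_a2630c_LR)
-/

open MeasureTheory Set Metric Real
open scoped RealInnerProductSpace ENNReal
open Pool.Agent.Helper16.Buoy (E cap IsEllipsoid Homothetic buoyancyBody)
open Pool.Agent.Helper73.HV (supp SBody)
open Pool.Agent.Helper35.HV (integral_image det_ne abs_det_pos integrable_K)

namespace Pool.Agent.Helper96.LR

open Pool.Agent.Helper73.LR

variable {n : ℕ}

theorem aff_inj (T : E n ≃L[ℝ] E n) (p : E n) : Function.Injective (aff T p) := by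
  intro x y h
  have : T x + p = T y + p := h
  exact T.injective (add_right_cancel this)

theorem aff_cont (T : E n ≃L[ℝ] E n) (p : E n) : Continuous (aff T p) := by
  unfold aff
  fun_prop

/-- change of variables -/
theorem integral_aff (T : E n ≃L[ℝ] E n) (p : E n) {K : Set (E n)} (hK : IsCompact K)
    (g : E n → ℝ) :
    ∫ y in aff T p '' K, g y = |(T : E n →L[ℝ] E n).det| * ∫ x in K, g (T x + p) := by
  have h := integral_image_eq_integral_abs_det_fderiv_smul (μ := volume) (s := K)
    (f := aff T p) (f' := fun _ => (T : E n →L[ℝ] E n)) hK.measurableSet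
    (fun x _ => (T.hasFDerivAt.add_const p).hasFDerivWithinAt) (aff_inj T p).injOn g
  rw [h, ← integral_const_mul]
  simp only [smul_eq_mul, aff]

theorem volume_aff (T : E n ≃L[ℝ] E n) (p : E n) (S : Set (E n)) :
    volume (aff T p '' S) = ENNReal.ofReal |(T : E n →L[ℝ] E n).det| * volume S := by
  have h1 : aff T p '' S = (fun x => x + p) '' ((T : E n →L[ℝ] E n) '' S) := by
    rw [image_image]; rfl
  rw [h1, image_add_right, measure_preimage_add_right,
    MeasureTheory.Measure.addHaar_image_continuousLinearMap]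

theorem vol_aff (T : E n ≃L[ℝ] E n) (p : E n) (S : Set (E n)) :
    vol (aff T p '' S) = |(T : E n →L[ℝ] E n).det| * vol S := by
  unfold vol
  rw [volume_aff, ENNReal.toReal_mul, ENNReal.toReal_ofReal (abs_nonneg _)]

/-- The adjoint. -/
noncomputable def ad (T : E n ≃L[ℝ] E n) (u : E n) : E n :=
  ContinuousLinearMap.adjoint (T : E n →L[ℝ] E n) u

theorem ad_inner (T : E n ≃L[ℝ] E n) (u x : E n) : inner ℝ (ad T u) x = inner ℝ u (T x) := by
  unfold ad
  rw [ContinuousLinearMap.adjoint_inner_left]
  rfl

theorem ad_ne (T : E n ≃L[ℝ] E n) {u : E n} (hu : u ≠ 0) : ad T u ≠ 0 := by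
  intro h
  have h1 := ad_inner T u (T.symm u)
  rw [h, inner_zero_left, ContinuousLinearEquiv.apply_symm_apply, real_inner_self_eq_norm_sq] at h1
  exact hu (norm_eq_zero.1 (pow_eq_zero_iff two_ne_zero |>.1 h1.symm))

theorem cb_aff {K : Set (E n)} (hK : CB K) (T : E n ≃L[ℝ] E n) (p : E n) :
    CB (aff T p '' K) where
  conv := by
    have h1 : aff T p '' K = (fun x => x + p) '' (T '' K) := by rw [image_image]; rfl
    rw [h1]
    have h2 := (hK.conv.linear_image (T : E n →ₗ[ℝ] E n)).translate p
    have h3 : (fun x => x + p) = (fun x => p + x) := by funext x; abel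
    rw [h3]
    exact h2
  comp := hK.comp.image (aff_cont T p)
  int := by
    let F : E n ≃ₜ E n := T.toHomeomorph.trans (Homeomorph.addRight p)
    have hF : ∀ S : Set (E n), F '' S = aff T p '' S := fun S => rfl
    have h := F.image_interior K
    rw [hF, hF] at h
    rw [← h]
    exact hK.int.image _

theorem vol_pos {K : Set (E n)} (hK : CB K) : 0 < vol K :=
  ENNReal.toReal_pos (ne_of_gt (lt_of_lt_of_le (isOpen_interior.measure_pos volume hK.int)
    (measure_mono interior_subset))) hK.comp.measure_lt_top.ne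

theorem cb_ball : CB (BB n) where
  conv := convex_closedBall 0 1
  comp := isCompact_closedBall 0 1
  int := by
    refine Set.Nonempty.mono (interior_mono ball_subset_closedBall) ?_
    rw [isOpen_ball.interior_eq]
    exact nonempty_ball.2 one_pos

theorem supp_smul {K : Set (E n)} (u : E n) {c : ℝ} (hc : 0 ≤ c) :
    supp K (c • u) = c * supp K u := by
  unfold supp
  rw [← smul_eq_mul, ← Real.sSup_smul_of_nonneg hc]
  congr 1
  ext y
  simp only [mem_image, Set.mem_smul_set, exists_exists_and_eq_and, smul_eq_mul,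
    real_inner_smul_left]

theorem supp_aff {K : Set (E n)} (hK : IsCompact K) (hne : K.Nonempty) (T : E n ≃L[ℝ] E n)
    (p u : E n) : supp (aff T p '' K) u = supp K (ad T u) + inner ℝ u p := by
  unfold supp
  have hb : BddAbove ((fun x => inner ℝ (ad T u) x) '' K) :=
    (hK.image (f := fun x => (inner ℝ (ad T u) x : ℝ)) (by fun_prop)).bddAbove
  have h1 : (fun x => (inner ℝ u x : ℝ)) '' (aff T p '' K) =
      (fun y => y + (inner ℝ u p : ℝ)) '' ((fun x => (inner ℝ (ad T u) x : ℝ)) '' K) := by
    rw [image_image, image_image]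
    congr 1
    funext x
    rw [aff, inner_add_right, ad_inner]
  rw [h1]
  have hm : Monotone (fun y : ℝ => y + (inner ℝ u p : ℝ)) := fun a b h => by
    simpa using h
  have := Monotone.map_csSup_of_continuousAt (f := fun y : ℝ => y + (inner ℝ u p : ℝ))
    (by fun_prop) hm (hne.image _) hb
  exact this.symm

end Pool.Agent.Helper96.LR
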